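import Pool.Agent.Y694.T6.Stm

/-!
# Labels with few weak ascents
-/

set_option autoImplicit false

open MeasureTheory ProbabilityTheory Filter Topology Set
open scoped ENNReal

namespace Pool.Agent.Y38.T6

open Pool.Agent.Y694.T6

/-- The number of weak ascents. -/
noncomputable def asc (n : ℕ) (w : Fin (n + 1) → ℝ) : ℕ :=
  ((Finset.univ : Finset (Fin n)).filter fun i => w i.castSucc ≤ w i.succ).card

theorem asc_cons (n : ℕ) (x : ℝ) (y : Fin (n + 1) → ℝ) :
    asc (n + 1) (Fin.cons x y) = (if x ≤ y 0 then 1 else 0) + asc n y := by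
  unfold asc
  rw [Finset.card_filter, Finset.card_filter, Fin.sum_univ_succ]
  rfl

theorem measurable_asc (n : ℕ) : Measurable (asc n) := by
  unfold asc
  simp only [Finset.card_filter]
  refine Finset.measurable_sum _ fun i _ => ?_
  refine Measurable.ite ?_ measurable_const measurable_const
  exact measurableSet_le (measurable_pi_apply _) (measurable_pi_apply _)

theorem lint_pow (n : ℕ) (c a b : ℝ) (hab : a ≤ b) (hc : 0 ≤ a + c) :
    ∫⁻ y in Ioc a b, ENNReal.ofReal ((y + c) ^ n / n.factorial) =
      ENNReal.ofReal (((b + c) ^ (n + 1) - (a + c) ^ (n + 1)) / (n + 1).factorial) := by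
  have hcont : Continuous fun y : ℝ => (y + c) ^ n / (n.factorial : ℝ) := by fun_prop
  rw [← ofReal_integral_eq_lintegral_ofReal]
  · rw [← intervalIntegral.integral_of_le hab, intervalIntegral.integral_div,
      intervalIntegral.integral_comp_add_right (fun y => y ^ n), integral_pow,
      Nat.factorial_succ]
    congr 1
    push_cast
    have h1 : (n.factorial : ℝ) ≠ 0 := by positivity
    have h2 : (n : ℝ) + 1 ≠ 0 := by positivity
    field_simp
  · exact hcont.integrableOn_Ioc
  · filter_upwards [ae_restrict_mem measurableSet_Ioc] with y hy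
    have : 0 ≤ y + c := by linarith [hy.1]
    positivity

theorem pi_succ (n : ℕ) (S : Set (Fin (n + 1) → ℝ)) (hS : MeasurableSet S) :
    (Measure.pi fun _ : Fin (n + 1) => lab) S =
      ∫⁻ x, (Measure.pi fun _ : Fin n => lab) {y | Fin.cons x y ∈ S} ∂lab := by
  have hmp := measurePreserving_piFinSuccAbove (fun _ : Fin (n + 1) => lab) 0
  have hm : Measurable fun p : ℝ × (Fin n → ℝ) => (Fin.cons p.1 p.2 : Fin (n + 1) → ℝ) := by
    refine measurable_pi_lambda _ fun i => ?_
    refine Fin.cases ?_ (fun j => ?_) i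
    · simpa using measurable_fst
    · simp only [Fin.cons_succ]
      exact (measurable_pi_apply j).comp measurable_snd
  have hT : MeasurableSet {p : ℝ × (Fin n → ℝ) | (Fin.cons p.1 p.2 : Fin (n + 1) → ℝ) ∈ S} :=
    hm hS
  have hpre : S = (MeasurableEquiv.piFinSuccAbove (fun _ : Fin (n + 1) => ℝ) 0) ⁻¹'
      {p : ℝ × (Fin n → ℝ) | (Fin.cons p.1 p.2 : Fin (n + 1) → ℝ) ∈ S} := by
    ext y
    simp only [Set.mem_preimage, Set.mem_ofPred_eq]
    have : (Fin.cons (MeasurableEquiv.piFinSuccAbove (fun _ : Fin (n + 1) => ℝ) 0 y).1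
        (MeasurableEquiv.piFinSuccAbove (fun _ : Fin (n + 1) => ℝ) 0 y).2 :
          Fin (n + 1) → ℝ) = y := by
      funext i
      refine Fin.cases ?_ (fun j => ?_) i
      · rfl
      · rfl
    rw [this]
  conv_lhs => rw [hpre]
  rw [hmp.measure_preimage hT.nullMeasurableSet, Measure.prod_apply hT]
  rfl

theorem asc_aux (n : ℕ) : ∀ (k : ℕ) (x : ℝ), x ∈ Icc (0 : ℝ) 1 →
    (Measure.pi fun _ : Fin n => lab) {y | asc n (Fin.cons x y) ≤ k} ≤
      ENNReal.ofReal ((x + k) ^ n / n.factorial) := by
  induction n with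
  | zero =>
    intro k x _
    have : ENNReal.ofReal ((x + k) ^ 0 / (Nat.factorial 0 : ℕ)) = 1 := by simp
    rw [this]
    exact prob_le_one
  | succ n ih =>
    intro k x hx
    have hmc : Measurable fun y : Fin (n + 1) → ℝ => (Fin.cons x y : Fin (n + 2) → ℝ) := by
      refine measurable_pi_lambda _ fun i => ?_
      refine Fin.cases ?_ (fun j => ?_) i
      · simp
      · simpa using measurable_pi_apply j
    have hS : MeasurableSet {y : Fin (n + 1) → ℝ | asc (n + 1) (Fin.cons x y) ≤ k} :=
      measurableSet_le ((measurable_asc (n + 1)).comp hmc) measurable_const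
    rw [pi_succ n _ hS]
    simp only [Set.mem_ofPred_eq, asc_cons, Fin.cons_zero]
    -- splitting the first coordinate
    have hlab : lab = volume.restrict (Ioc 0 x) + volume.restrict (Ioc x 1) := by
      unfold lab
      rw [← Measure.restrict_union (Set.Ioc_disjoint_Ioc_of_le le_rfl) measurableSet_Ioc,
        Ioc_union_Ioc_eq_Ioc hx.1 hx.2]
      exact Measure.restrict_congr_set Ioc_ae_eq_Icc.symm
    have hsplit : ∀ g : ℝ → ℝ≥0∞,
        ∫⁻ y, g y ∂lab = (∫⁻ y in Ioc 0 x, g y) + ∫⁻ y in Ioc x 1, g y := by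
      intro g
      rw [hlab, lintegral_add_measure]
    have hint1 : ∫⁻ y in Ioc 0 x, (Measure.pi fun _ : Fin n => lab)
        {z | (if x ≤ y then 1 else 0) + asc n (Fin.cons y z) ≤ k} ≤
        ENNReal.ofReal (((x + k) ^ (n + 1) - (0 + k) ^ (n + 1)) / (n + 1).factorial) := by
      rw [← lint_pow n k 0 x hx.1 (by positivity)]
      refine lintegral_mono_ae ?_
      have hne : ∀ᵐ y ∂(volume.restrict (Ioc 0 x)), y ∈ Ioo 0 x := by
        have h1 : ∀ᵐ y : ℝ, y ≠ x := by
          rw [ae_iff]
          simp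
        filter_upwards [ae_restrict_mem measurableSet_Ioc, ae_restrict_of_ae h1] with y hy hyx
        exact ⟨hy.1, lt_of_le_of_ne hy.2 hyx⟩
      filter_upwards [hne] with y hy
      rw [if_neg (not_le.mpr hy.2)]
      simp only [zero_add]
      exact ih k y ⟨hy.1.le, (hy.2.trans_le hx.2).le⟩
    rcases Nat.eq_zero_or_pos k with hk | hk
    · subst hk
      have hint2 : ∫⁻ y in Ioc x 1, (Measure.pi fun _ : Fin n => lab)
          {z | (if x ≤ y then 1 else 0) + asc n (Fin.cons y z) ≤ 0} = 0 := by
        rw [← lintegral_zero (μ := volume.restrict (Ioc x 1))]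
        refine lintegral_congr_ae ?_
        filter_upwards [ae_restrict_mem measurableSet_Ioc] with y hy
        rw [if_pos hy.1.le]
        simp
      rw [hsplit, hint2, add_zero]
      refine hint1.trans (le_of_eq ?_)
      simp
    · obtain ⟨j, rfl⟩ := Nat.exists_eq_succ_of_ne_zero hk.ne'
      have hint2 : ∫⁻ y in Ioc x 1, (Measure.pi fun _ : Fin n => lab)
          {z | (if x ≤ y then 1 else 0) + asc n (Fin.cons y z) ≤ j.succ} ≤
          ENNReal.ofReal (((1 + j) ^ (n + 1) - (x + j) ^ (n + 1)) / (n + 1).factorial) := by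
        rw [← lint_pow n j x 1 hx.2 (by have := hx.1; positivity)]
        refine lintegral_mono_ae ?_
        filter_upwards [ae_restrict_mem measurableSet_Ioc] with y hy
        rw [if_pos hy.1.le]
        have : {z : Fin n → ℝ | 1 + asc n (Fin.cons y z) ≤ j.succ} =
            {z : Fin n → ℝ | asc n (Fin.cons y z) ≤ j} := by
          ext z
          simp only [Set.mem_ofPred_eq]
          omega
        rw [this]
        exact ih j y ⟨hx.1.trans hy.1.le, hy.2⟩
      rw [hsplit]
      refine (add_le_add hint1 hint2).trans ?_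
      have hx0 := hx.1
      have hx1 := hx.2
      rw [← ENNReal.ofReal_add]
      · refine ENNReal.ofReal_le_ofReal ?_
        rw [← add_div]
        refine div_le_div_of_nonneg_right ?_ (by positivity)
        have : (0 : ℝ) ≤ (x + j) ^ (n + 1) := by positivity
        push_cast
        have h2 : (0 + ((j : ℝ) + 1)) ^ (n + 1) = (1 + j) ^ (n + 1) := by ring
        linarith
      · refine div_nonneg ?_ (by positivity)
        have : (0 + ((j.succ : ℕ) : ℝ)) ^ (n + 1) ≤ (x + (j.succ : ℕ)) ^ (n + 1) :=
          pow_le_pow_left₀ (by positivity) (by linarith) _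
        linarith
      · refine div_nonneg ?_ (by positivity)
        have : (x + (j : ℝ)) ^ (n + 1) ≤ (1 + (j : ℝ)) ^ (n + 1) :=
          pow_le_pow_left₀ (by positivity) (by linarith) _
        linarith

theorem t_asc : AscBound := by
  intro n k
  have hS : MeasurableSet {w : Fin (n + 1) → ℝ | asc n w ≤ k} :=
    measurableSet_le (measurable_asc n) measurable_const
  change (Measure.pi fun _ : Fin (n + 1) => lab) {w | asc n w ≤ k} ≤ _
  rw [pi_succ n _ hS]
  have : ∫⁻ x, (Measure.pi fun _ : Fin n => lab) {y | Fin.cons x y ∈ {w | asc n w ≤ k}} ∂lab ≤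
      ∫⁻ _, ENNReal.ofReal (((k : ℝ) + 1) ^ n / n.factorial) ∂lab := by
    refine lintegral_mono_ae ?_
    have hx : ∀ᵐ x ∂lab, x ∈ Icc (0 : ℝ) 1 := ae_restrict_mem measurableSet_Icc
    filter_upwards [hx] with x hx
    refine (asc_aux n k x hx).trans (ENNReal.ofReal_le_ofReal ?_)
    have h1 := hx.1
    have h2 := hx.2
    refine div_le_div_of_nonneg_right ?_ (by positivity)
    exact pow_le_pow_left₀ (by positivity) (by linarith) _
  refine this.trans (le_of_eq ?_)
  rw [lintegral_const, measure_univ, mul_one]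

end Pool.Agent.Y38.T6
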