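import Pool.Agent.Y694.T6.Stm

/-!
# The integral equation for the density of the greedy independent set of the 5-ary tree
-/

set_option autoImplicit false

open MeasureTheory ProbabilityTheory Filter Topology Set
open scoped ENNReal

namespace Pool.Agent.Y38.T6

open Pool.Agent.Y694.T6

theorem t_ffEq (hS : SelfSim) (hI : TstIn) (hX : TstExcl) (hA : TstAe) (hM : TstMeas) :
    FfEq := by
  have mIn : MeasurableSet {ω : List (Fin 5) → ℝ | ∃ r, tst r true ω} := by
    have : {ω : List (Fin 5) → ℝ | ∃ r, tst r true ω} = ⋃ r, {ω | tst r true ω} := by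
      ext
      simp
    rw [this]
    exact MeasurableSet.iUnion fun r => hM r true
  have mOut : MeasurableSet {ω : List (Fin 5) → ℝ | ∃ r, tst r false ω} := by
    have : {ω : List (Fin 5) → ℝ | ∃ r, tst r false ω} = ⋃ r, {ω | tst r false ω} := by
      ext
      simp
    rw [this]
    exact MeasurableSet.iUnion fun r => hM r false
  have mLt : ∀ x : ℝ, MeasurableSet {ω : List (Fin 5) → ℝ | ω [] < x} := fun x =>
    measurableSet_lt (measurable_pi_apply _) measurable_const
  have hmono : Monotone ff := by
    intro a b hab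
    exact measureReal_mono (fun ω h => ⟨h.1, lt_of_lt_of_le h.2 hab⟩)
  have h0 : ∀ x, 0 ≤ ff x := fun x => measureReal_nonneg
  have h1 : ∀ x, ff x ≤ 1 := fun x => by
    unfold ff
    exact measureReal_le_one
  refine ⟨hmono, h0, h1, ?_⟩
  intro x hx
  have hG : ∀ y : ℝ, (P (List (Fin 5))) {η | η [] < y → ∃ r, tst r false η} =
      ENNReal.ofReal (1 - ff y) := by
    intro y
    have e1 : {η : List (Fin 5) → ℝ | η [] < y → ∃ r, tst r false η} =
        {η | η [] < y ∧ ¬ ∃ r, tst r false η}ᶜ := by
      ext η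
      simp
    have m1 : MeasurableSet {η : List (Fin 5) → ℝ | η [] < y ∧ ¬ ∃ r, tst r false η} :=
      (mLt y).inter mOut.compl
    have e2 : (P (List (Fin 5))) {η | η [] < y ∧ ¬ ∃ r, tst r false η} =
        (P (List (Fin 5))) {η | (∃ r, tst r true η) ∧ η [] < y} := by
      refine measure_congr ?_
      filter_upwards [hA] with η hη
      refine propext ?_
      constructor
      · rintro ⟨ha, hb⟩
        exact ⟨hη.resolve_right hb, ha⟩
      · rintro ⟨⟨r, hr⟩, ha⟩
        exact ⟨ha, fun ⟨r', hr'⟩ => hX r r' η hr hr'⟩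
    rw [e1, prob_compl_eq_one_sub m1, e2]
    have e3 : (P (List (Fin 5))) {η | (∃ r, tst r true η) ∧ η [] < y} =
        ENNReal.ofReal (ff y) := by
      unfold ff
      rw [ofReal_measureReal]
    rw [e3, ← ENNReal.ofReal_one, ← ENNReal.ofReal_sub _ (h0 y)]
  -- the event as a preimage
  set S : Set (ℝ × (Fin 5 → List (Fin 5) → ℝ)) :=
    {p | p.1 < x ∧ ∀ i, p.2 i [] < p.1 → ∃ r, tst r false (p.2 i)} with hSdef
  have mS : MeasurableSet S := by
    have : S = {p : ℝ × (Fin 5 → List (Fin 5) → ℝ) | p.1 < x} ∩
        ⋂ i : Fin 5, ({p : ℝ × (Fin 5 → List (Fin 5) → ℝ) | p.2 i [] < p.1}ᶜ ∪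
          (fun p : ℝ × (Fin 5 → List (Fin 5) → ℝ) => p.2 i) ⁻¹'
            {η | ∃ r, tst r false η}) := by
      ext p
      simp only [hSdef, Set.mem_ofPred_eq, Set.mem_inter_iff, Set.mem_iInter, Set.mem_union,
        Set.mem_compl_iff, Set.mem_preimage]
      refine and_congr_right fun _ => forall_congr' fun i => ?_
      tauto
    rw [this]
    refine (measurableSet_lt measurable_fst measurable_const).inter
      (MeasurableSet.iInter fun i => ?_)
    refine MeasurableSet.union (MeasurableSet.compl ?_) ?_
    · exact measurableSet_lt (by fun_prop) measurable_fst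
    · exact (by fun_prop : Measurable fun p : ℝ × (Fin 5 → List (Fin 5) → ℝ) => p.2 i) mOut
  have hpre : {ω : List (Fin 5) → ℝ | (∃ r, tst r true ω) ∧ ω [] < x} =
      (fun ω : List (Fin 5) → ℝ => (ω [], fun i : Fin 5 => sh i ω)) ⁻¹' S := by
    ext ω
    simp only [hSdef, Set.mem_preimage, Set.mem_ofPred_eq]
    rw [hI ω, and_comm]
    rfl
  have hE : (P (List (Fin 5))) {ω | (∃ r, tst r true ω) ∧ ω [] < x} =
      ∫⁻ y in Ioc (0 : ℝ) x, ENNReal.ofReal ((1 - ff y) ^ 5) := by
    rw [hpre, hS.measure_preimage mS.nullMeasurableSet, Measure.prod_apply mS]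
    have hfib : ∀ y : ℝ, (Measure.pi fun _ : Fin 5 => P (List (Fin 5))) (Prod.mk y ⁻¹' S) =
        (Iio x).indicator (fun y => ENNReal.ofReal ((1 - ff y) ^ 5)) y := by
      intro y
      by_cases hy : y < x
      · rw [indicator_of_mem (show y ∈ Iio x from hy)]
        have : Prod.mk y ⁻¹' S = Set.univ.pi fun _ : Fin 5 =>
            {η : List (Fin 5) → ℝ | η [] < y → ∃ r, tst r false η} := by
          ext η
          simp [hSdef, hy]
        rw [this, Measure.pi_pi]
        simp only [hG, Finset.prod_const, Finset.card_univ, Fintype.card_fin]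
        rw [ENNReal.ofReal_pow (by linarith [h1 y])]
      · rw [indicator_of_notMem (show y ∉ Iio x from hy)]
        have : Prod.mk y ⁻¹' S = ∅ := by
          ext η
          simp [hSdef, hy]
        rw [this, measure_empty]
    rw [lintegral_congr hfib, lintegral_indicator measurableSet_Iio]
    have hres : lab.restrict (Iio x) = volume.restrict (Ioc (0 : ℝ) x) := by
      unfold lab
      rw [Measure.restrict_restrict measurableSet_Iio]
      have : Iio x ∩ Icc (0 : ℝ) 1 = Ico 0 x := by
        ext y
        simp only [mem_inter_iff, mem_Iio, mem_Icc, mem_Ico]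
        constructor
        · rintro ⟨a, b, c⟩
          exact ⟨b, a⟩
        · rintro ⟨a, b⟩
          exact ⟨b, a, (b.trans_le hx.2).le⟩
      rw [this]
      exact Measure.restrict_congr_set Ico_ae_eq_Ioc
    rw [hres]
  have hffm : Measurable ff := hmono.measurable
  rw [intervalIntegral.integral_of_le hx.1, integral_eq_lintegral_of_nonneg_ae]
  · rw [← hE]
    rfl
  · exact Eventually.of_forall fun y => pow_nonneg (by linarith [h1 y]) 5
  · exact ((measurable_const.sub hffm).pow_const 5).aestronglyMeasurable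

end Pool.Agent.Y38.T6
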