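import Pool.Agent.Y694.T6.Stm

/-!
# Restriction of an infinite product along an injection
-/

set_option autoImplicit false

open MeasureTheory ProbabilityTheory Filter Topology Set
open scoped ENNReal

namespace Pool.Agent.Y38.T6

open Pool.Agent.Y694.T6

theorem t_law (V : Type*) (W : Type*) : LawComp V W := by
  intro f hf
  classical
  unfold P
  refine Measure.eq_infinitePi _ ?_
  intro s t ht
  have hm : Measurable (fun ω : V → ℝ => ω ∘ f) :=
    measurable_pi_lambda _ fun w => measurable_pi_apply (f w)
  rw [Measure.map_apply hm (MeasurableSet.pi s.countable_toSet fun i _ => ht i)]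
  let t' : V → Set ℝ := fun v => if h : ∃ w, f w = v then t h.choose else Set.univ
  have ht' : ∀ w, t' (f w) = t w := by
    intro w
    have h : ∃ w', f w' = f w := ⟨w, rfl⟩
    have h2 : h.choose = w := hf h.choose_spec
    simp only [t', dif_pos h]
    rw [h2]
  have hpre : (fun ω : V → ℝ => ω ∘ f) ⁻¹' (Set.pi (s : Set W) t) =
      Set.pi ((s.image f : Finset V) : Set V) t' := by
    ext ω
    simp only [Set.mem_preimage, Set.mem_pi, Finset.coe_image, Set.mem_image, Finset.mem_coe,
      Function.comp_apply]
    constructor
    · rintro h v ⟨w, hw, rfl⟩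
      rw [ht']
      exact h w hw
    · intro h w hw
      have := h (f w) ⟨w, hw, rfl⟩
      rwa [ht'] at this
  have hmt : ∀ v ∈ s.image f, MeasurableSet (t' v) := by
    intro v hv
    obtain ⟨w, -, rfl⟩ := Finset.mem_image.mp hv
    rw [ht']
    exact ht w
  rw [hpre, Measure.infinitePi_pi _ hmt, Finset.prod_image (fun a _ b _ h => hf h)]
  exact Finset.prod_congr rfl fun w _ => by rw [ht']

end Pool.Agent.Y38.T6
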