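import Pool.Agent.Y694.T6.Stm

/-!
# Measurability of the algorithm
-/

set_option autoImplicit false

open MeasureTheory ProbabilityTheory Filter Topology Set
open scoped ENNReal

namespace Pool.Agent.Y38.T6

open Pool.Agent.Y694.T6

theorem exists_nbr' {V : Type*} (G : SimpleGraph V) (hdeg : Deg6 G) :
    ∃ N : V → Finset V, ∀ v w, w ∈ N v ↔ G.Adj v w := by
  classical
  have hfin : ∀ v, (G.neighborSet v).Finite := fun v =>
    Set.finite_of_ncard_ne_zero (by rw [hdeg v]; norm_num)
  refine ⟨fun v => (hfin v).toFinset, fun v w => ?_⟩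
  rw [(hfin v).mem_toFinset]
  rfl

theorem measurable_ncard {V Ω : Type*} [MeasurableSpace Ω] (N : Finset V) (a : Ω → V → Prop)
    (ha : ∀ w, MeasurableSet {ω | a ω w}) :
    Measurable fun ω => {w | w ∈ N ∧ a ω w}.ncard := by
  classical
  have : (fun ω => {w | w ∈ N ∧ a ω w}.ncard) = fun ω => ∑ w ∈ N, if a ω w then 1 else 0 := by
    funext ω
    have h : {w | w ∈ N ∧ a ω w} = ((N.filter fun w => a ω w : Finset V) : Set V) := by
      ext w
      simp
    rw [h, Set.ncard_coe_finset, Finset.card_filter]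
  rw [this]
  refine Finset.measurable_sum _ fun w _ => ?_
  exact Measurable.ite (ha w) measurable_const measurable_const

theorem sInf_eq_iff' (S : Set ℕ) (n : ℕ) :
    sInf S = n ↔ (n ∈ S ∧ ∀ m < n, m ∉ S) ∨ (n = 0 ∧ ∀ m, m ∉ S) := by
  constructor
  · intro h
    rcases S.eq_empty_or_nonempty with h0 | h0
    · subst h0
      right
      rw [Nat.sInf_empty] at h
      exact ⟨h.symm, fun m hm => hm⟩
    · left
      subst h
      exact ⟨Nat.sInf_mem h0, fun m hm => Nat.notMem_of_lt_sInf hm⟩
  · rintro (⟨h1, h2⟩ | ⟨h1, h2⟩)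
    · refine le_antisymm (Nat.sInf_le h1) ?_
      by_contra hc
      push Not at hc
      exact h2 _ hc (Nat.sInf_mem ⟨n, h1⟩)
    · subst h1
      rw [Set.eq_empty_of_forall_notMem h2, Nat.sInf_empty]

theorem measurable_sInf_nat {Ω : Type*} [MeasurableSpace Ω] (S : Ω → Set ℕ)
    (hS : ∀ n, MeasurableSet {ω | n ∈ S ω}) : Measurable fun ω => sInf (S ω) := by
  refine measurable_to_countable' fun n => ?_
  have : (fun ω => sInf (S ω)) ⁻¹' {n} =
      ({ω | n ∈ S ω} ∩ ⋂ m : ℕ, ⋂ _ : m < n, {ω | m ∈ S ω}ᶜ) ∪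
        ({_ω : Ω | n = 0} ∩ ⋂ m : ℕ, {ω | m ∈ S ω}ᶜ) := by
    ext ω
    simp only [Set.mem_preimage, Set.mem_singleton_iff, sInf_eq_iff', Set.mem_union,
      Set.mem_inter_iff, Set.mem_iInter, Set.mem_compl_iff, Set.mem_ofPred_eq]
  rw [this]
  refine MeasurableSet.union ((hS n).inter ?_) (MeasurableSet.inter ?_ ?_)
  · exact MeasurableSet.iInter fun m => MeasurableSet.iInter fun _ => (hS m).compl
  · exact MeasurableSet.const _
  · exact MeasurableSet.iInter fun m => (hS m).compl

theorem t_meas {V : Type*} (G : SimpleGraph V) (hdeg : Deg6 G) : Meas G := by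
  classical
  obtain ⟨N, hN⟩ := exists_nbr' G hdeg
  have hlt : ∀ a b : V, MeasurableSet {ω : V → ℝ | ω a < ω b} := fun a b =>
    measurableSet_lt (measurable_pi_apply a) (measurable_pi_apply b)
  intro r
  induction r with
  | zero =>
    intro v
    refine ⟨fun b => ?_, ?_, ?_⟩
    · simp [st]
    · simp only [rt]
      exact measurable_const
    · simp only [col]
      exact measurable_const
  | succ r ih =>
    have hst : ∀ (v : V) (b : Bool), MeasurableSet {ω : V → ℝ | st G r b ω v} :=
      fun v b => (ih v).1 b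
    have hrt : ∀ v : V, Measurable fun ω : V → ℝ => rt G r ω v := fun v => (ih v).2.1
    have hcol : ∀ v : V, Measurable fun ω : V → ℝ => col G r ω v := fun v => (ih v).2.2
    have hrt0 : ∀ v : V, MeasurableSet {ω : V → ℝ | rt G r ω v ≠ 0} := fun v =>
      (hrt v) (measurableSet_singleton 0).compl
    have hcolc : ∀ (v : V) (c : ℕ), MeasurableSet {ω : V → ℝ | col G r ω v ≠ c} := fun v c =>
      (hcol v) (measurableSet_singleton c).compl
    intro v
    refine ⟨fun b => ?_, ?_, ?_⟩
    · cases b with
      | true =>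
        have : {ω : V → ℝ | st G (r + 1) true ω v} =
            ⋂ w ∈ N v, ({ω : V → ℝ | ω w < ω v}ᶜ ∪ {ω : V → ℝ | st G r false ω w}) := by
          ext ω
          simp only [st, Set.mem_ofPred_eq, Set.mem_iInter, Set.mem_union, Set.mem_compl_iff, hN]
          refine forall_congr' fun w => forall_congr' fun _ => ?_
          tauto
        rw [this]
        exact Finset.measurableSet_biInter _ fun w _ => (hlt w v).compl.union (hst w false)
      | false =>
        have : {ω : V → ℝ | st G (r + 1) false ω v} =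
            ⋃ w ∈ N v, ({ω : V → ℝ | ω w < ω v} ∩ {ω : V → ℝ | st G r true ω w}) := by
          ext ω
          simp only [st, Set.mem_ofPred_eq, Set.mem_iUnion, Set.mem_inter_iff, hN]
          refine exists_congr fun w => ?_
          tauto
        rw [this]
        exact Finset.measurableSet_biUnion _ fun w _ => (hlt w v).inter (hst w true)
    · simp only [rt]
      refine Measurable.ite (hrt0 v) (hrt v) (Measurable.ite ?_ measurable_const measurable_const)
      refine MeasurableSet.inter (hst v false) ?_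
      have hm : Measurable fun ω : V → ℝ =>
          {w | w ∈ N v ∧ (st G r true ω w ∨ rt G r ω w ≠ 0)}.ncard :=
        measurable_ncard (N v) (fun ω w => st G r true ω w ∨ rt G r ω w ≠ 0) fun w =>
          (hst w true).union (hrt0 w)
      have h2 : MeasurableSet {ω : V → ℝ |
          3 ≤ {w | w ∈ N v ∧ (st G r true ω w ∨ rt G r ω w ≠ 0)}.ncard} :=
        measurableSet_le measurable_const hm
      simp only [hN] at h2
      exact h2
    · simp only [col]
      refine Measurable.ite (hcolc v 0) (hcol v) (Measurable.ite ?_ ?_ measurable_const)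
      · refine MeasurableSet.inter (hrt0 v) ?_
        have : {ω : V → ℝ | ∀ w, G.Adj v w →
            (st G r true ω w ∨ col G r ω w ≠ 0 ∨
              (rt G r ω w ≠ 0 ∧ (rt G r ω w < rt G r ω v ∨
                (rt G r ω w = rt G r ω v ∧ ω v < ω w))))} =
            ⋂ w ∈ N v, ({ω : V → ℝ | st G r true ω w} ∪ ({ω : V → ℝ | col G r ω w ≠ 0} ∪
              ({ω : V → ℝ | rt G r ω w ≠ 0} ∩ ({ω : V → ℝ | rt G r ω w < rt G r ω v} ∪
                ({ω : V → ℝ | rt G r ω w = rt G r ω v} ∩ {ω : V → ℝ | ω v < ω w}))))) := by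
          ext ω
          simp only [Set.mem_ofPred_eq, Set.mem_iInter, Set.mem_union, Set.mem_inter_iff, hN]
        change MeasurableSet {ω : V → ℝ | ∀ w, G.Adj v w →
            (st G r true ω w ∨ col G r ω w ≠ 0 ∨
              (rt G r ω w ≠ 0 ∧ (rt G r ω w < rt G r ω v ∨
                (rt G r ω w = rt G r ω v ∧ ω v < ω w))))}
        rw [this]
        refine Finset.measurableSet_biInter _ fun w _ => ?_
        refine (hst w true).union ((hcolc w 0).union ((hrt0 w).inter ?_))
        exact (measurableSet_lt (hrt w) (hrt v)).union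
          ((measurableSet_eq_fun (hrt w) (hrt v)).inter (hlt v w))
      · refine measurable_sInf_nat _ fun c => ?_
        have : {ω : V → ℝ | c ∈ {c | c ≠ 0 ∧ ∀ w, G.Adj v w →
            ((rt G r ω w ≠ 0 ∧ rt G r ω w < rt G r ω v) ∨ col G r ω w ≠ c)}} =
            {_ω : V → ℝ | c ≠ 0} ∩ ⋂ w ∈ N v,
              (({ω : V → ℝ | rt G r ω w ≠ 0} ∩ {ω : V → ℝ | rt G r ω w < rt G r ω v}) ∪
                {ω : V → ℝ | col G r ω w ≠ c}) := by
          ext ω
          simp only [Set.mem_ofPred_eq, Set.mem_iInter, Set.mem_union, Set.mem_inter_iff, hN]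
        rw [this]
        refine (MeasurableSet.const _).inter (Finset.measurableSet_biInter _ fun w _ => ?_)
        exact ((hrt0 w).inter (measurableSet_lt (hrt w) (hrt v))).union (hcolc w c)

end Pool.Agent.Y38.T6
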