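import Pool.Agent.Y694.T6.Stm

/-!
# The differential equation of the greedy independent set of the 5-ary tree
-/

set_option autoImplicit false

open MeasureTheory Filter Topology Set

namespace Pool.Agent.Y38.T6

open Pool.Agent.Y694.T6

theorem t_ode : Ode := by
  intro f hmono h0 h1 hf
  have hmeas : Measurable f := hmono.measurable
  have hint5 : ∀ a b : ℝ, IntervalIntegrable (fun y => (1 - f y) ^ 5) volume a b := by
    intro a b
    have hm : Measurable (fun y => (1 - f y) ^ 5) := (measurable_const.sub hmeas).pow_const 5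
    refine (intervalIntegrable_const (c := (1 : ℝ))).mono_fun' hm.aestronglyMeasurable ?_
    refine Eventually.of_forall fun y => ?_
    have h2 : 0 ≤ 1 - f y := by linarith [h1 y]
    have h3 : 1 - f y ≤ 1 := by linarith [h0 y]
    simp only [Real.norm_eq_abs]
    rw [abs_of_nonneg (pow_nonneg h2 5)]
    exact pow_le_one₀ h2 h3
  set F : ℝ → ℝ := fun x => ∫ y in (0 : ℝ)..x, (1 - f y) ^ 5 with hF
  have hFc : Continuous F := intervalIntegral.continuous_primitive hint5 0
  have hfF : ∀ x ∈ Icc (0 : ℝ) 1, f x = F x := hf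
  have hFd : ∀ x ∈ Ioo (0 : ℝ) 1, HasDerivAt F ((1 - F x) ^ 5) x := by
    intro x hx
    have hev : (fun y => (1 - f y) ^ 5) =ᶠ[𝓝 x] fun y => (1 - F y) ^ 5 := by
      filter_upwards [Ioo_mem_nhds hx.1 hx.2] with y hy
      rw [hfF y (Ioo_subset_Icc_self hy)]
    have hcont : ContinuousAt (fun y => (1 - f y) ^ 5) x := by
      have : ContinuousAt (fun y => (1 - F y) ^ 5) x := by fun_prop
      exact this.congr hev.symm
    have hd := intervalIntegral.integral_hasDerivAt_right (hint5 0 x)
      (((measurable_const.sub hmeas).pow_const 5).stronglyMeasurable.stronglyMeasurableAtFilter)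
      hcont
    have : (1 - f x) ^ 5 = (1 - F x) ^ 5 := hev.self_of_nhds
    rw [← this]
    exact hd
  -- the first integral
  have hw : ∀ x ∈ Icc (0 : ℝ) 1, (1 - F x) ^ 4 * (1 + 4 * x) = 1 := by
    set D : ℝ → ℝ := fun x => (1 - (1 - F x) ^ 4 * (1 + 4 * x)) ^ 2 with hD
    have hDd : ∀ x ∈ Ioo (0 : ℝ) 1,
        HasDerivAt D (-(8 * (1 - F x) ^ 4 * (1 - (1 - F x) ^ 4 * (1 + 4 * x)) ^ 2)) x := by
      intro x hx
      have hu : HasDerivAt (fun x => 1 - F x) (-(1 - F x) ^ 5) x := by
        simpa using (hFd x hx).const_sub 1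
      have h4 : HasDerivAt (fun x => (1 - F x) ^ 4) (4 * (1 - F x) ^ 3 * (-(1 - F x) ^ 5)) x := by
        refine (hu.fun_pow 4).congr_deriv ?_
        norm_num
      have hl : HasDerivAt (fun x : ℝ => 1 + 4 * x) 4 x := by
        simpa using ((hasDerivAt_id x).const_mul (4 : ℝ)).const_add 1
      have h5 := ((h4.mul hl).const_sub 1).pow 2
      refine h5.congr_deriv ?_
      simp only [Pi.mul_apply]
      push_cast
      ring
    have hanti : AntitoneOn D (Icc 0 1) := by
      refine antitoneOn_of_deriv_nonpos (convex_Icc 0 1) ?_ ?_ ?_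
      · have : Continuous D := by
          simp only [hD]
          fun_prop
        exact this.continuousOn
      · intro x hx
        rw [interior_Icc] at hx
        exact (hDd x hx).differentiableAt.differentiableWithinAt
      · intro x hx
        rw [interior_Icc] at hx
        rw [(hDd x hx).deriv]
        have h2 : 0 ≤ 1 - F x := by
          rw [← hfF x (Ioo_subset_Icc_self hx)]
          linarith [h1 x]
        have : 0 ≤ 8 * (1 - F x) ^ 4 * (1 - (1 - F x) ^ 4 * (1 + 4 * x)) ^ 2 := by positivity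
        linarith
    have hF0 : F 0 = 0 := by simp [hF]
    have hD0 : D 0 = 0 := by simp [hD, hF0]
    intro x hx
    have hle := hanti (left_mem_Icc.mpr zero_le_one) hx hx.1
    rw [hD0] at hle
    have hz : (1 - (1 - F x) ^ 4 * (1 + 4 * x)) ^ 2 = 0 := le_antisymm hle (sq_nonneg _)
    have := pow_eq_zero_iff (two_ne_zero) |>.mp hz
    linarith
  have hu0 : ∀ x ∈ Icc (0 : ℝ) 1, 0 ≤ 1 - F x := by
    intro x hx
    rw [← hfF x hx]
    linarith [h1 x]
  have hone : (1 : ℝ) ∈ Icc (0 : ℝ) 1 := right_mem_Icc.mpr zero_le_one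
  have hw1 := hw 1 hone
  have hup : 1 - F 1 ≤ 669 / 1000 := by
    by_contra hc
    push Not at hc
    have : (669 / 1000 : ℝ) ^ 4 ≤ (1 - F 1) ^ 4 := pow_le_pow_left₀ (by norm_num) hc.le 4
    norm_num at this hw1
    linarith
  have hlo : 6686 / 10000 ≤ 1 - F 1 := by
    by_contra hc
    push Not at hc
    have : (1 - F 1) ^ 4 ≤ (6686 / 10000 : ℝ) ^ 4 := pow_le_pow_left₀ (hu0 1 hone) hc.le 4
    norm_num at this hw1
    linarith
  constructor
  · rw [hfF 1 hone]
    linarith
  · have hcong : ∫ y in (0 : ℝ)..1, f y = ∫ y in (0 : ℝ)..1, F y := by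
      refine intervalIntegral.integral_congr ?_
      intro y hy
      rw [uIcc_of_le zero_le_one] at hy
      exact hfF y hy
    rw [hcong]
    have hprim : ∫ y in (0 : ℝ)..1, (1 - F y) =
        (1 - F 1) * (1 + 4 * 1) / 3 - (1 - F 0) * (1 + 4 * 0) / 3 := by
      refine intervalIntegral.integral_eq_sub_of_hasDerivAt_of_le
        (f := fun x => (1 - F x) * (1 + 4 * x) / 3) zero_le_one ?_ ?_ ?_
      · have : Continuous (fun x => (1 - F x) * (1 + 4 * x) / 3) := by fun_prop
        exact this.continuousOn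
      · intro x hx
        have hu : HasDerivAt (fun x => 1 - F x) (-(1 - F x) ^ 5) x := by
          simpa using (hFd x hx).const_sub 1
        have hl : HasDerivAt (fun x : ℝ => 1 + 4 * x) 4 x := by
          simpa using ((hasDerivAt_id x).const_mul (4 : ℝ)).const_add 1
        have h5 := (hu.mul hl).div_const 3
        refine h5.congr_deriv ?_
        have := hw x (Ioo_subset_Icc_self hx)
        have h6 : (1 - F x) ^ 5 * (1 + 4 * x) = (1 - F x) := by
          calc (1 - F x) ^ 5 * (1 + 4 * x) = (1 - F x) * ((1 - F x) ^ 4 * (1 + 4 * x)) := by ring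
            _ = 1 - F x := by rw [this, mul_one]
        linarith
      · exact (continuous_const.sub hFc).intervalIntegrable 0 1
    have hsub : ∫ y in (0 : ℝ)..1, (1 - F y) = 1 - ∫ y in (0 : ℝ)..1, F y := by
      rw [intervalIntegral.integral_sub intervalIntegrable_const (hFc.intervalIntegrable 0 1)]
      simp
    have hF0 : F 0 = 0 := by simp [hF]
    rw [hF0] at hprim
    linarith

end Pool.Agent.Y38.T6
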