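import Pool.Agent.Y694.T6.Stm

/-!
# Self-similarity of the law of the labels of the 5-ary tree
-/

set_option autoImplicit false

open MeasureTheory ProbabilityTheory Filter Topology Set
open scoped ENNReal

namespace Pool.Agent.Y38.T6

open Pool.Agent.Y694.T6

/-- Grafting five labelled trees on a root. -/
def graft (p : ℝ × (Fin 5 → List (Fin 5) → ℝ)) : List (Fin 5) → ℝ
  | [] => p.1
  | i :: l => p.2 i l

theorem measurable_graft : Measurable graft := by
  refine measurable_pi_lambda _ fun l => ?_
  cases l with
  | nil => exact measurable_fst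
  | cons i l =>
    exact (measurable_pi_apply l).comp ((measurable_pi_apply i).comp measurable_snd)

theorem map_graft :
    (lab.prod (Measure.pi fun _ : Fin 5 => P (List (Fin 5)))).map graft = P (List (Fin 5)) := by
  classical
  conv_rhs => unfold P
  refine Measure.eq_infinitePi _ ?_
  intro s t ht
  rw [Measure.map_apply measurable_graft (MeasurableSet.pi s.countable_toSet fun i _ => ht i)]
  let si : Fin 5 → Finset (List (Fin 5)) := fun i =>
    s.preimage (fun l => i :: l) (fun a _ b _ h => by simpa using h)
  have msi : ∀ i l, l ∈ si i ↔ i :: l ∈ s := fun i l => Finset.mem_preimage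
  have hpre : graft ⁻¹' (Set.pi (s : Set (List (Fin 5))) t) =
      (if [] ∈ s then t [] else Set.univ) ×ˢ
        Set.univ.pi fun i : Fin 5 => Set.pi (si i : Set (List (Fin 5))) fun l => t (i :: l) := by
    ext p
    simp only [Set.mem_preimage, Set.mem_pi, Finset.mem_coe, Set.mem_prod, Set.mem_univ,
      true_implies, msi]
    constructor
    · intro h
      refine ⟨?_, fun i l hl => h (i :: l) hl⟩
      split_ifs with h0
      · exact h [] h0
      · trivial
    · rintro ⟨h1, h2⟩ l hl
      cases l with
      | nil =>
        rw [if_pos hl] at h1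
        exact h1
      | cons i l => exact h2 i l hl
  rw [hpre, Measure.prod_prod, Measure.pi_pi]
  have h1 : ∀ i : Fin 5, (P (List (Fin 5)))
      (Set.pi (si i : Set (List (Fin 5))) fun l => t (i :: l)) =
      ∏ l ∈ si i, lab (t (i :: l)) := by
    intro i
    unfold P
    rw [Measure.infinitePi_pi _ fun l _ => ht (i :: l)]
  simp only [h1]
  have h2 : lab (if [] ∈ s then t [] else Set.univ) =
      ∏ l ∈ s.filter (fun l => l = []), lab (t l) := by
    by_cases h0 : [] ∈ s
    · have : s.filter (fun l => l = []) = {[]} := by
        ext l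
        simp only [Finset.mem_filter, Finset.mem_singleton]
        constructor
        · exact fun h => h.2
        · rintro rfl
          exact ⟨h0, rfl⟩
      rw [if_pos h0, this, Finset.prod_singleton]
    · have : s.filter (fun l => l = []) = ∅ := by
        ext l
        simp only [Finset.mem_filter, Finset.notMem_empty, iff_false, not_and]
        rintro hl rfl
        exact h0 hl
      rw [if_neg h0, this, Finset.prod_empty, measure_univ]
  have h3 : ∏ i : Fin 5, ∏ l ∈ si i, lab (t (i :: l)) =
      ∏ l ∈ s.filter (fun l => ¬ l = []), lab (t l) := by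
    rw [Finset.prod_sigma']
    refine Finset.prod_nbij (fun x => x.1 :: x.2) ?_ ?_ ?_ ?_
    · rintro ⟨i, l⟩ hx
      simp only [Finset.mem_sigma, Finset.mem_univ, true_and, msi] at hx
      simp only [Finset.mem_filter]
      exact ⟨hx, by simp⟩
    · rintro ⟨i, l⟩ _ ⟨j, m⟩ _ h
      simp only [List.cons.injEq] at h
      obtain ⟨rfl, rfl⟩ := h
      rfl
    · rintro l hl
      simp only [Finset.coe_filter, Set.mem_ofPred_eq] at hl
      cases l with
      | nil => exact absurd rfl hl.2
      | cons i l =>
        refine ⟨⟨i, l⟩, ?_, rfl⟩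
        simp only [Finset.coe_sigma, Set.mem_sigma_iff, Finset.mem_coe, Finset.mem_univ, true_and,
          msi]
        exact hl.1
    · rintro ⟨i, l⟩ _
      rfl
  rw [h2, h3, Finset.prod_filter_mul_prod_filter_not]

theorem t_self : SelfSim := by
  have hm : Measurable (fun ω : List (Fin 5) → ℝ => (ω [], fun i : Fin 5 => sh i ω)) := by
    refine (measurable_pi_apply _).prodMk ?_
    refine measurable_pi_lambda _ fun i => measurable_pi_lambda _ fun l => ?_
    exact measurable_pi_apply (i :: l)
  refine ⟨hm, ?_⟩
  conv_lhs => rw [← map_graft]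
  rw [Measure.map_map hm measurable_graft]
  have : (fun ω : List (Fin 5) → ℝ => (ω [], fun i : Fin 5 => sh i ω)) ∘ graft = id := by
    funext p
    rfl
  rw [this, Measure.map_id]

end Pool.Agent.Y38.T6
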