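import Pool.Agent.Y694.T6.Stm

/-!
# Union bound over walks
-/

set_option autoImplicit false

open MeasureTheory ProbabilityTheory Filter Topology Set
open scoped ENNReal

namespace Pool.Agent.Y38.T6

open Pool.Agent.Y694.T6

/-- The walk coded by `s`. -/
def wlk {V : Type*} (e : V → Fin 6 → V) (v : V) (s : ℕ → Fin 6) : ℕ → V
  | 0 => v
  | i + 1 => e (wlk e v s i) (s i)

/-- Extension of a finite code. -/
def ext6 {n : ℕ} (s : Fin n → Fin 6) (i : ℕ) : Fin 6 := if h : i < n then s ⟨i, h⟩ else 0

theorem exists_code {V : Type*} (G : SimpleGraph V) (hdeg : Deg6 G) :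
    ∃ e : V → Fin 6 → V, ∀ v w, G.Adj v w ↔ ∃ j, e v j = w := by
  classical
  have h1 : ∀ v, ∃ f : Fin 6 → V, ∀ w, G.Adj v w ↔ ∃ j, f j = w := by
    intro v
    have hfin : (G.neighborSet v).Finite :=
      Set.finite_of_ncard_ne_zero (by rw [hdeg v]; norm_num)
    have hcard : hfin.toFinset.card = 6 := by
      rw [← Set.ncard_eq_toFinset_card _ hfin, hdeg v]
    let φ := Finset.equivFinOfCardEq hcard
    refine ⟨fun j => (φ.symm j : V), fun w => ?_⟩
    constructor
    · intro h
      have hw : w ∈ hfin.toFinset := by simpa using h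
      exact ⟨φ ⟨w, hw⟩, by simp⟩
    · rintro ⟨j, rfl⟩
      have h3 := (φ.symm j).2
      exact (hfin.mem_toFinset).mp h3
  choose e he using h1
  exact ⟨e, he⟩

theorem t_walk {V : Type*} (hA : AscBound) (hL : ∀ n : ℕ, LawComp V (Fin n))
    (G : SimpleGraph V) (hdeg : Deg6 G) : WalkBound G := by
  classical
  intro v n k
  obtain ⟨e, he⟩ := exists_code G hdeg
  let E : (Fin n → Fin 6) → Set (V → ℝ) := fun s =>
    {ω | Set.InjOn (wlk e v (ext6 s)) (Set.Iic n) ∧
      ((Finset.range n).filter fun i =>
        ω (wlk e v (ext6 s) i) ≤ ω (wlk e v (ext6 s) (i + 1))).card ≤ k}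
  have hsub : {ω : V → ℝ | ∃ p : ℕ → V, FewAsc G v n k ω p} ⊆ ⋃ s, E s := by
    rintro ω ⟨p, hp0, hadj, hinj, hcard⟩
    have hch : ∀ i : Fin n, ∃ j, e (p i) j = p (i + 1) := fun i =>
      (he _ _).mp (hadj i i.2)
    choose s hs using hch
    have hw : ∀ i, i ≤ n → wlk e v (ext6 s) i = p i := by
      intro i
      induction i with
      | zero => intro _; exact hp0.symm
      | succ i ih =>
        intro hi
        have hi' : i < n := hi
        simp only [wlk, ih hi'.le, ext6, dif_pos hi']
        exact hs ⟨i, hi'⟩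
    refine mem_iUnion.mpr ⟨s, ?_, ?_⟩
    · intro a ha b hb hab
      rw [hw a ha, hw b hb] at hab
      exact hinj ha hb hab
    · have : ((Finset.range n).filter fun i =>
          ω (wlk e v (ext6 s) i) ≤ ω (wlk e v (ext6 s) (i + 1))) =
          (Finset.range n).filter fun i => ω (p i) ≤ ω (p (i + 1)) := by
        refine Finset.filter_congr fun i hi => ?_
        have hi' := Finset.mem_range.mp hi
        rw [hw i hi'.le, hw (i + 1) hi']
      rw [this]
      exact hcard
  have hE : ∀ s, P V (E s) ≤ ENNReal.ofReal (((k : ℝ) + 1) ^ n / n.factorial) := by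
    intro s
    by_cases hinj : Set.InjOn (wlk e v (ext6 s)) (Set.Iic n)
    · let f : Fin (n + 1) → V := fun i => wlk e v (ext6 s) i
      have hf : Function.Injective f := by
        intro a b hab
        have ha : (a : ℕ) ∈ Set.Iic n := Nat.lt_succ_iff.mp a.2
        have hb : (b : ℕ) ∈ Set.Iic n := Nat.lt_succ_iff.mp b.2
        exact Fin.ext (hinj ha hb hab)
      have hlaw := hL (n + 1) f hf
      have hm : Measurable (fun ω : V → ℝ => ω ∘ f) :=
        measurable_pi_lambda _ fun w => measurable_pi_apply (f w)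
      refine le_trans ?_ (hA n k)
      have h2 : (Measure.pi fun _ : Fin (n + 1) => lab) = (P V).map (fun ω => ω ∘ f) := by
        rw [hlaw]
        unfold P
        rw [Measure.infinitePi_eq_pi]
      rw [h2]
      refine le_trans (measure_mono ?_) (Measure.le_map_apply hm.aemeasurable _)
      intro ω hω
      have h3 := hω.2
      change (Finset.univ.filter fun i : Fin n => ω (f i.castSucc) ≤ ω (f i.succ)).card ≤ k
      rw [Finset.card_filter] at h3 ⊢
      refine le_trans (le_of_eq ?_) h3
      exact Fin.sum_univ_eq_sum_range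
        (fun i => if ω (wlk e v (ext6 s) i) ≤ ω (wlk e v (ext6 s) (i + 1)) then 1 else 0) n
    · have : E s = ∅ := by
        ext ω
        simp [E, hinj]
      rw [this, measure_empty]
      exact zero_le
  calc P V {ω : V → ℝ | ∃ p : ℕ → V, FewAsc G v n k ω p} ≤ P V (⋃ s, E s) := measure_mono hsub
    _ ≤ ∑ s, P V (E s) := measure_iUnion_fintype_le _ _
    _ ≤ ∑ _s : Fin n → Fin 6, ENNReal.ofReal (((k : ℝ) + 1) ^ n / n.factorial) :=
        Finset.sum_le_sum fun s _ => hE s
    _ = ENNReal.ofReal ((6 * ((k : ℝ) + 1)) ^ n / n.factorial) := by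
        rw [Finset.sum_const, Finset.card_univ, Fintype.card_fun, Fintype.card_fin,
          Fintype.card_fin, nsmul_eq_mul, mul_pow, mul_div_assoc,
          ENNReal.ofReal_mul (by positivity)]
        congr 1
        rw [ENNReal.ofReal_pow (by norm_num)]
        push_cast
        norm_num

end Pool.Agent.Y38.T6
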