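import Pool.Agent.Y694.T6.Stm
import Pool.Agent.Y38.T6.Law
import Pool.Agent.Y38.T6.Asc

/-!
# Union bound over balls, countability, no ties
-/

set_option autoImplicit false

open MeasureTheory ProbabilityTheory Filter Topology Set
open scoped ENNReal

namespace Pool.Agent.Y38.T6

open Pool.Agent.Y694.T6

theorem exists_nbr {V : Type*} (G : SimpleGraph V) (hdeg : Deg6 G) :
    ∃ N : V → Finset V, (∀ v, (N v).card = 6) ∧ ∀ v w, w ∈ N v ↔ G.Adj v w := by
  classical
  have hfin : ∀ v, (G.neighborSet v).Finite := fun v =>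
    Set.finite_of_ncard_ne_zero (by rw [hdeg v]; norm_num)
  refine ⟨fun v => (hfin v).toFinset, fun v => ?_, fun v w => ?_⟩
  · rw [← Set.ncard_eq_toFinset_card _ (hfin v), hdeg v]
  · rw [(hfin v).mem_toFinset]
    rfl

open Classical in
/-- The ball of radius `m` around `v` (or a larger set). -/
noncomputable def bll {V : Type*} (N : V → Finset V) (v : V) : ℕ → Finset V
  | 0 => {v}
  | m + 1 => (bll N v m).biUnion fun u => insert u (N u)

theorem card_bll {V : Type*} (N : V → Finset V) (hN : ∀ v, (N v).card = 6) (v : V) (m : ℕ) :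
    (bll N v m).card ≤ 7 ^ m := by
  classical
  induction m with
  | zero => simp [bll]
  | succ m ih =>
    simp only [bll]
    refine Finset.card_biUnion_le.trans ?_
    calc ∑ u ∈ bll N v m, (insert u (N u)).card ≤ ∑ _u ∈ bll N v m, 7 :=
          Finset.sum_le_sum fun u _ => (Finset.card_insert_le _ _).trans (by rw [hN])
      _ = (bll N v m).card * 7 := by simp
      _ ≤ 7 ^ m * 7 := Nat.mul_le_mul_right _ ih
      _ = 7 ^ (m + 1) := by ring

theorem mem_bll {V : Type*} (G : SimpleGraph V) (N : V → Finset V)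
    (hN : ∀ v w, w ∈ N v ↔ G.Adj v w) (v : V) :
    ∀ (m : ℕ) (u : V) (p : G.Walk u v), p.length ≤ m → u ∈ bll N v m := by
  classical
  intro m
  induction m with
  | zero =>
    intro u p hp
    cases p with
    | nil => simp [bll]
    | cons h p => simp at hp
  | succ m ih =>
    intro u p hp
    simp only [bll, Finset.mem_biUnion]
    cases p with
    | nil => exact ⟨v, ih v SimpleGraph.Walk.nil (by simp), by simp⟩
    | cons h p =>
      rename_i w
      rw [SimpleGraph.Walk.length_cons] at hp
      refine ⟨w, ih w p (by omega), ?_⟩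
      rw [Finset.mem_insert, hN]
      exact Or.inr h.symm

theorem mem_bll' {V : Type*} (G : SimpleGraph V) (hc : G.Connected) (N : V → Finset V)
    (hN : ∀ v w, w ∈ N v ↔ G.Adj v w) (v u : V) (m : ℕ) (h : G.dist v u ≤ m) :
    u ∈ bll N v m := by
  obtain ⟨p, hp⟩ := hc.exists_walk_length_eq_dist u v
  refine mem_bll G N hN v m u p ?_
  rw [hp, SimpleGraph.dist_comm]
  exact h

theorem t_ballUnion {V : Type*} (G : SimpleGraph V) (hc : G.Connected) (hdeg : Deg6 G) :
    BallUnion G := by
  classical
  obtain ⟨N, hN1, hN2⟩ := exists_nbr G hdeg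
  intro Q a hQ v m
  have hsub : {ω : V → ℝ | ∃ u, G.dist v u ≤ m ∧ Q ω u} ⊆
      ⋃ u ∈ bll N v m, {ω : V → ℝ | Q ω u} := by
    rintro ω ⟨u, hu, hq⟩
    exact mem_biUnion (mem_bll' G hc N hN2 v u m hu) hq
  calc P V {ω | ∃ u, G.dist v u ≤ m ∧ Q ω u} ≤ P V (⋃ u ∈ bll N v m, {ω : V → ℝ | Q ω u}) :=
        measure_mono hsub
    _ ≤ ∑ u ∈ bll N v m, P V {ω : V → ℝ | Q ω u} := measure_biUnion_finset_le _ _
    _ ≤ ∑ _u ∈ bll N v m, a := Finset.sum_le_sum fun u _ => hQ u
    _ = ((bll N v m).card : ℝ≥0∞) * a := by rw [Finset.sum_const, nsmul_eq_mul]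
    _ ≤ 7 ^ m * a := by
        gcongr
        exact_mod_cast card_bll N hN1 v m

theorem t_countable {V : Type*} (G : SimpleGraph V) (hc : G.Connected) (hdeg : Deg6 G) :
    Countable V := by
  classical
  obtain ⟨N, hN1, hN2⟩ := exists_nbr G hdeg
  obtain ⟨v⟩ := hc.nonempty
  have : (⋃ m, (bll N v m : Set V)) = Set.univ := by
    refine Set.eq_univ_of_forall fun u => ?_
    exact mem_iUnion.mpr ⟨G.dist v u, mem_bll' G hc N hN2 v u _ le_rfl⟩
  refine Set.countable_univ_iff.mp ?_
  rw [← this]
  exact Set.countable_iUnion fun m => (bll N v m).countable_toSet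

instance instNoAtomsLab : NullSingletonClass lab := by
  unfold lab
  infer_instance

theorem t_noTies (V : Type*) [Countable V] : NoTies V := by
  have h : ∀ u v : V, u ≠ v → ∀ᵐ ω ∂(P V), ω u ≠ ω v := by
    intro u v huv
    let f : Fin 2 → V := ![u, v]
    have hf : Function.Injective f := by
      intro a b hab
      fin_cases a <;> fin_cases b <;> simp_all [f, eq_comm]
    have hlaw := t_law V (Fin 2) f hf
    have hm : Measurable (fun ω : V → ℝ => ω ∘ f) :=
      measurable_pi_lambda _ fun w => measurable_pi_apply (f w)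
    have hS : MeasurableSet {w : Fin 2 → ℝ | w 0 = w 1} :=
      measurableSet_eq_fun (measurable_pi_apply 0) (measurable_pi_apply 1)
    have hz : (P (Fin 2)) {w : Fin 2 → ℝ | w 0 = w 1} = 0 := by
      unfold P
      rw [Measure.infinitePi_eq_pi, pi_succ 1 _ hS]
      have : ∀ x : ℝ, (Measure.pi fun _ : Fin 1 => lab)
          {y : Fin 1 → ℝ | (Fin.cons x y : Fin 2 → ℝ) ∈ {w : Fin 2 → ℝ | w 0 = w 1}} = 0 := by
        intro x
        have h1 : {y : Fin 1 → ℝ | (Fin.cons x y : Fin 2 → ℝ) ∈ {w : Fin 2 → ℝ | w 0 = w 1}} =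
            {y : Fin 1 → ℝ | y 0 = x} := by
          ext y
          simp only [Set.mem_ofPred_eq]
          constructor
          · intro h
            exact h.symm
          · intro h
            exact h.symm
        rw [h1]
        exact Measure.pi_hyperplane (fun _ : Fin 1 => lab) 0 x
      rw [lintegral_congr this, lintegral_zero]
    rw [ae_iff]
    rw [← hlaw, Measure.map_apply hm hS] at hz
    refine measure_mono_null ?_ hz
    intro ω hω
    simp only [ne_eq, not_not, Set.mem_ofPred_eq] at hω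
    exact hω
  unfold NoTies
  rw [ae_all_iff]
  intro u
  rw [ae_all_iff]
  intro v
  by_cases huv : u = v
  · exact Eventually.of_forall fun ω hne => absurd huv hne
  · filter_upwards [h u v huv] with ω hω _
    exact hω

end Pool.Agent.Y38.T6
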