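import Pool.Agent.Y694.T6.Stm

/-!
# From superexponential tails to the complexity
-/

set_option autoImplicit false

open MeasureTheory ProbabilityTheory Filter Topology Set
open scoped ENNReal

namespace Pool.Agent.Y38.T6

open Pool.Agent.Y694.T6

theorem t_teps : Teps := by
  classical
  intro q hq
  have hex : ∀ ε : ℝ, 0 < ε → ∃ n, q n ≤ ε := by
    intro ε hε
    have h1 := hq 1
    have h2 : Tendsto (fun n : ℕ => Real.exp (-1 * (n : ℝ))) atTop (𝓝 0) := by
      refine Real.tendsto_exp_atBot.comp ?_
      exact tendsto_natCast_atTop_atTop.const_mul_atTop_of_neg (by norm_num)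
    obtain ⟨n, hn1, hn2⟩ := (h1.and (h2.eventually (gt_mem_nhds hε))).exists
    exact ⟨n, hn1.trans hn2.le⟩
  refine ⟨fun ε => if h : ∃ n, q n ≤ ε then Nat.find h else 0, ?_, ?_⟩
  · intro ε hε
    have h := hex ε hε
    simp only [dif_pos h]
    exact Nat.find_spec h
  · rw [Asymptotics.isLittleO_iff]
    intro c hc
    have hC : 0 < 2 / c := by positivity
    obtain ⟨N, hN⟩ := eventually_atTop.mp (hq (2 / c))
    have hL : Tendsto (fun ε : ℝ => Real.log ε⁻¹) (𝓝[>] 0) atTop :=
      Real.tendsto_log_atTop.comp tendsto_inv_nhdsGT_zero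
    filter_upwards [hL.eventually (eventually_ge_atTop (2 / c * N)),
      hL.eventually (eventually_ge_atTop (2 / c)), self_mem_nhdsWithin] with ε h1 h2 h3
    have hε : 0 < ε := h3
    have hex' := hex ε hε
    simp only [dif_pos hex']
    set L := Real.log ε⁻¹ with hLdef
    have hLpos : 0 < L := lt_of_lt_of_le hC h2
    have hLC : 0 ≤ L / (2 / c) := by positivity
    set n := ⌈L / (2 / c)⌉₊ with hn
    have hn1 : L / (2 / c) ≤ n := Nat.le_ceil _
    have hn2 : (n : ℝ) < L / (2 / c) + 1 := Nat.ceil_lt_add_one hLC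
    have hNn : N ≤ n := by
      have : (N : ℝ) ≤ L / (2 / c) := by
        rw [le_div_iff₀ hC]
        linarith
      exact_mod_cast this.trans hn1
    have hq1 := hN n hNn
    have hle : q n ≤ ε := by
      refine hq1.trans ?_
      have : Real.exp (-(2 / c) * n) ≤ Real.exp (-L) := by
        refine Real.exp_le_exp.mpr ?_
        have := (div_le_iff₀ hC).mp hn1
        linarith
      refine this.trans (le_of_eq ?_)
      rw [hLdef, Real.log_inv, neg_neg, Real.exp_log hε]
    have hfind : Nat.find hex' ≤ n := Nat.find_min' hex' hle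
    have hfind' : ((Nat.find hex' : ℕ) : ℝ) ≤ n := by exact_mod_cast hfind
    rw [Real.norm_of_nonneg (Nat.cast_nonneg _), Real.norm_of_nonneg hLpos.le]
    have h4 : L / (2 / c) = c * L / 2 := by
      field_simp
    have h5 : 1 ≤ c * L / 2 := by
      have := mul_le_mul_of_nonneg_left h2 hc.le
      have h6 : c * (2 / c) = 2 := by field_simp
      linarith
    linarith

end Pool.Agent.Y38.T6
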